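import Pool.Agent.U556.BW6

/-!
# Weak-* convergence of Bergman measures does not imply the log-asymptotics

`n = 1`, `K` = unit circle, `V_K = log⁺|z|`, `μ_K = dθ/2π`.  There is a finite measure `ν` carried by `K`
(point masses at `e^{ij}`, `j = 0, 1, 2, …`) such that (S) holds and (W) fails; in fact
`(2k)^{-1} log B_k(z) → +∞` at every point `z` off the circle.
-/

open MeasureTheory Filter Topology Set Polynomial

noncomputable section

namespace Pool.Agent.Results.MP_58ffb3_an.BergmanWeakNotLog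

open U556.BW

/-- The probability measure `N_k^{-1} B_k · ν`, `N_k = k + 1`. -/
def bergmanMeasure (ν : Measure ℂ) (k : ℕ) (B : ℂ → ℝ) : Measure ℂ :=
  ν.withDensity (fun z => ENNReal.ofReal (((k : ℝ) + 1)⁻¹ * B z))

/-- Property (S) for the Bergman functions `B_k` of `ν`: `N_k^{-1} B_k ν → μ` weak-*. -/
def PropertyS (μ ν : Measure ℂ) (B : ℕ → ℂ → ℝ) : Prop :=
  ∀ f : ℂ → ℝ, Continuous f →
    Tendsto (fun k => ∫ z, f z ∂(bergmanMeasure ν k (B k))) atTop (𝓝 (∫ z, f z ∂μ))

/-- Property (W): `(2k)^{-1} log B_k → V_K` locally uniformly on `ℂ`. -/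
def PropertyW (K : Set ℂ) (B : ℕ → ℂ → ℝ) : Prop :=
  TendstoLocallyUniformly (fun (k : ℕ) (z : ℂ) => (2 * (k : ℝ))⁻¹ * Real.log (B k z))
    (fun z => (extremalFunction K z).toReal) atTop

/-- (S) does not imply (W). -/
theorem result :
    ∃ (K : Set ℂ) (μ ν : Measure ℂ),
      K = Metric.sphere (0 : ℂ) 1 ∧ IsCompact K ∧
      Continuous (extremalFunction K) ∧ (∀ z, extremalFunction K z ≠ ⊤ ∧ extremalFunction K z ≠ ⊥) ∧
      IsEquilibriumMeasure K μ ∧
      IsFiniteMeasure ν ∧ ν Kᶜ = 0 ∧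
      (∀ p : ℂ[X], p ≠ 0 → 0 < ∫ z, ‖p.eval z‖ ^ 2 ∂ν) ∧
      (∀ k, ∃ B, IsBergmanFunction ν k B) ∧
      ∀ B : ℕ → ℂ → ℝ, (∀ k, IsBergmanFunction ν k (B k)) →
        PropertyS μ ν B ∧ ¬ PropertyW K B ∧
        ∀ z ∉ K, Tendsto (fun k : ℕ => (2 * (k : ℝ))⁻¹ * Real.log (B k z)) atTop atTop := by
  refine ⟨Metric.sphere (0 : ℂ) 1, circleMeasure, nu, rfl, isCompact_sphere _ _, ?_, ?_,
    isEquilibriumMeasure_circle, inferInstance, nu_compl, nu_pos, ?_, ?_⟩
  · rw [extremalFunction_circle]
    exact continuous_coe_real_ereal.comp (Real.continuous_posLog.comp continuous_norm)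
  · intro z
    rw [extremalFunction_circle]
    exact ⟨EReal.coe_ne_top _, EReal.coe_ne_bot _⟩
  · intro k
    obtain ⟨e, he⟩ := exists_orthonormalBasis hint_nu nu_pos k
    exact ⟨sumSq e, e, he, rfl⟩
  · intro B hB
    have hlog : ∀ z ∉ Metric.sphere (0 : ℂ) 1,
        Tendsto (fun k : ℕ => (2 * (k : ℝ))⁻¹ * Real.log (B k z)) atTop atTop := by
      intro z hz
      exact log_tendsto hB (by simpa using hz)
    refine ⟨?_, ?_, hlog⟩
    · intro f hf
      have hS := S_holds hB hf
      refine hS.congr fun k => ?_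
      unfold bergmanMeasure
      have hBc := bergman_continuous (hB k)
      rw [integral_withDensity_eq_integral_toReal_smul]
      · rw [← integral_const_mul]
        congr 1
        funext z
        rw [ENNReal.toReal_ofReal (mul_nonneg (by positivity) (bergman_nonneg (hB k) z)), smul_eq_mul]
        ring
      · exact (ENNReal.measurable_ofReal.comp ((measurable_const.mul hBc.measurable)))
      · exact Eventually.of_forall fun z => ENNReal.ofReal_lt_top
    · intro hW
      have h0 := hlog 0 (by simp)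
      unfold PropertyW at hW
      have h1 := (hW.tendstoLocallyUniformlyOn (s := Set.univ)).tendsto_at (Set.mem_univ (0 : ℂ))
      exact not_tendsto_nhds_of_tendsto_atTop h0 _ h1

end Pool.Agent.Results.MP_58ffb3_an.BergmanWeakNotLog
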